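import Pool.Agent.W593.ZT.Stm

/-! Project ZT (helper593), part GAIN. -/

open scoped Classical

set_option autoImplicit false

namespace Pool.Agent.W557.ZT

open Pool.Agent.W593.ZT

theorem Cs_insert {V G : Type} (c : V → V → G) (B : Finset V) (w z : V) :
    Cs c (insert w B) z = insert (c z w) (Cs c B z) := by
  unfold Cs
  rw [Finset.image_insert]

theorem gain (hM : S_MONO) : S_GAIN := by
  intro V G _ _ _ c hc r hr B hB
  have hk : ∀ z, 1 ≤ (Cs c B z).card := by
    intro z
    exact Finset.card_pos.2 (hB.image _)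
  have hk' : ∀ w z, 1 ≤ (Cs c (insert w B) z).card := by
    intro w z
    exact Finset.card_pos.2 ((Finset.insert_nonempty w B).image _)
  set U := Finset.univ \ B with hU
  have hmemU : ∀ z, z ∈ U ↔ z ∉ B := by
    intro z
    simp [hU]
  have hFFB : (FF c B : ℤ) = ∑ z ∈ U, (((min (Cs c B z).card 3 : ℕ) : ℤ) - 1) := by
    unfold FF
    rw [← hU, Nat.cast_sum]
    refine Finset.sum_congr rfl fun z _ => ?_
    have := hk z
    rw [Nat.cast_sub (by omega), Nat.cast_one]
  have hFFw : ∀ w ∈ U, (FF c (insert w B) : ℤ) =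
      ∑ z ∈ U.erase w, (((min (Cs c (insert w B) z).card 3 : ℕ) : ℤ) - 1) := by
    intro w hw
    have e : Finset.univ \ insert w B = U.erase w := by
      ext z
      simp only [Finset.mem_sdiff, Finset.mem_univ, true_and, Finset.mem_insert, not_or,
        Finset.mem_erase, hmemU]
    unfold FF
    rw [e, Nat.cast_sum]
    refine Finset.sum_congr rfl fun z _ => ?_
    have := hk' w z
    rw [Nat.cast_sub (by omega), Nat.cast_one]
  have hdiff : ∀ w ∈ U, (FF c (insert w B) : ℤ) - FF c B =
      ∑ z ∈ U.erase w, (((min (Cs c (insert w B) z).card 3 : ℕ) : ℤ) -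
        ((min (Cs c B z).card 3 : ℕ) : ℤ)) - (((min (Cs c B w).card 3 : ℕ) : ℤ) - 1) := by
    intro w hw
    rw [hFFw w hw, hFFB, ← Finset.add_sum_erase U _ hw, sub_add_eq_sub_sub, sub_right_comm,
      ← Finset.sum_sub_distrib]
    congr 1
    refine Finset.sum_congr rfl fun z _ => ?_
    ring
  rw [Finset.sum_congr rfl hdiff, Finset.sum_sub_distrib]
  rw [Finset.sum_comm' (t' := U) (s' := fun z => U.erase z) (by
    intro w z
    simp only [Finset.mem_erase, ne_eq]
    constructor
    · rintro ⟨h1, h2, h3⟩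
      exact ⟨⟨fun h => h2 h.symm, h1⟩, h3⟩
    · rintro ⟨⟨h1, h2⟩, h3⟩
      exact ⟨h2, fun h => h1 h.symm, h3⟩)]
  rw [← Finset.sum_sub_distrib]
  have hf : ((r : ℤ) - 1) * (U.card : ℤ) + 2 * (n1 c B : ℤ) - ((r : ℤ) + 1) * (n3 c B : ℤ) =
      ∑ z ∈ U, (((r : ℤ) - 1) + 2 * (if (Cs c B z).card = 1 then 1 else 0) -
        ((r : ℤ) + 1) * (if 3 ≤ (Cs c B z).card then 1 else 0)) := by
    rw [Finset.sum_sub_distrib, Finset.sum_add_distrib, Finset.sum_const, ← Finset.mul_sum,
      ← Finset.mul_sum, Finset.sum_boole, Finset.sum_boole, nsmul_eq_mul]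
    unfold n1 n3
    rw [← hU]
    ring
  rw [hf]
  refine Finset.sum_le_sum fun z hz => ?_
  -- nonnegativity of the gains
  have hg0 : ∀ w, 0 ≤ ((min (Cs c (insert w B) z).card 3 : ℕ) : ℤ) -
        ((min (Cs c B z).card 3 : ℕ) : ℤ) := by
    intro w
    have h1 : (Cs c B z).card ≤ (Cs c (insert w B) z).card := by
      rw [Cs_insert]
      exact Finset.card_le_card (Finset.subset_insert _ _)
    have h2 : min (Cs c B z).card 3 ≤ min (Cs c (insert w B) z).card 3 := by omega
    have h3 : ((min (Cs c B z).card 3 : ℕ) : ℤ) ≤ ((min (Cs c (insert w B) z).card 3 : ℕ) : ℤ) := by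
      exact_mod_cast h2
    linarith
  have hg1 : ∀ w, (Cs c B z).card ≤ 2 → c z w ∉ Cs c B z →
      (1 : ℤ) ≤ ((min (Cs c (insert w B) z).card 3 : ℕ) : ℤ) -
        ((min (Cs c B z).card 3 : ℕ) : ℤ) := by
    intro w h1 h2
    have h3 : (Cs c (insert w B) z).card = (Cs c B z).card + 1 := by
      rw [Cs_insert, Finset.card_insert_of_notMem h2]
    rw [h3]
    have h4 : min ((Cs c B z).card + 1) 3 = min (Cs c B z).card 3 + 1 := by omega
    rw [h4]
    push_cast
    linarith
  have hgS : ∀ S : Finset V, (Cs c B z).card ≤ 2 → (∀ w ∈ S, w ≠ z ∧ c z w ∉ Cs c B z) →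
      (S.card : ℤ) ≤ ∑ w ∈ U.erase z, (((min (Cs c (insert w B) z).card 3 : ℕ) : ℤ) -
        ((min (Cs c B z).card 3 : ℕ) : ℤ)) := by
    intro S h1 h2
    have hsub : S ⊆ U.erase z := by
      intro w hw
      rw [Finset.mem_erase, hmemU]
      refine ⟨(h2 w hw).1, fun hwB => (h2 w hw).2 ?_⟩
      exact Finset.mem_image_of_mem _ hwB
    calc (S.card : ℤ) = ∑ w ∈ S, (1 : ℤ) := by simp
      _ ≤ ∑ w ∈ S, (((min (Cs c (insert w B) z).card 3 : ℕ) : ℤ) -
        ((min (Cs c B z).card 3 : ℕ) : ℤ)) := Finset.sum_le_sum fun w hw => hg1 w h1 (h2 w hw).2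
      _ ≤ _ := Finset.sum_le_sum_of_subset_of_nonneg hsub fun w _ _ => hg0 w
  have hG0 : 0 ≤ ∑ w ∈ U.erase z, (((min (Cs c (insert w B) z).card 3 : ℕ) : ℤ) -
        ((min (Cs c B z).card 3 : ℕ) : ℤ)) := Finset.sum_nonneg fun w _ => hg0 w
  rcases Nat.lt_or_ge (Cs c B z).card 3 with h3 | h3
  · rcases Nat.lt_or_ge (Cs c B z).card 2 with h2 | h2
    · -- one colour
      have h1 : (Cs c B z).card = 1 := by have := hk z; omega
      obtain ⟨a, ha⟩ := Finset.card_eq_one.1 h1
      obtain ⟨p, hp1, hp2, -⟩ := hM V G c hc z a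
      have hcard : r + 1 ≤ (insert p (Rs c z a (c z p))).card := by
        rw [Finset.card_insert_of_notMem (by
          unfold Rs
          simp)]
        have := hr z a (c z p) (Ne.symm hp2)
        omega
      have hS := hgS (insert p (Rs c z a (c z p))) (by omega) (by
        intro w hw
        rw [ha, Finset.mem_singleton]
        rcases Finset.mem_insert.1 hw with rfl | hw
        · exact ⟨hp1, hp2⟩
        · unfold Rs at hw
          rw [Finset.mem_filter] at hw
          exact ⟨hw.2.1, hw.2.2.1⟩)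
      rw [if_pos h1, if_neg (by omega)]
      have e : min (Cs c B z).card 3 = 1 := by omega
      have hcard' : ((r : ℤ) + 1) ≤ ((insert p (Rs c z a (c z p))).card : ℤ) := by
        exact_mod_cast hcard
      have e' : ((min (Cs c B z).card 3 : ℕ) : ℤ) = 1 := by rw [e]; rfl
      linarith
    · -- two colours
      have h1 : (Cs c B z).card = 2 := by omega
      obtain ⟨a, b, hab, hab'⟩ := Finset.card_eq_two.1 h1
      have hcard := hr z a b hab
      have hS := hgS (Rs c z a b) (by omega) (by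
        intro w hw
        unfold Rs at hw
        rw [Finset.mem_filter] at hw
        refine ⟨hw.2.1, ?_⟩
        rw [hab', Finset.mem_insert, Finset.mem_singleton, not_or]
        exact ⟨hw.2.2.1, hw.2.2.2⟩)
      rw [if_neg (by omega), if_neg (by omega)]
      have e : min (Cs c B z).card 3 = 2 := by omega
      have hcard' : (r : ℤ) ≤ ((Rs c z a b).card : ℤ) := by
        exact_mod_cast hcard
      have e' : ((min (Cs c B z).card 3 : ℕ) : ℤ) = 2 := by rw [e]; rfl
      linarith
  · rw [if_neg (by omega), if_pos h3]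
    have e : min (Cs c B z).card 3 = 3 := by omega
    have e' : ((min (Cs c B z).card 3 : ℕ) : ℤ) = 3 := by rw [e]; rfl
    linarith

end Pool.Agent.W557.ZT
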